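import Pool.Agent.Lib.MP_d0f9e0_co.Approx.Final

/-!
# Nearly maximal equiangular tight frames in every large dimension
-/

set_option autoImplicit false

namespace Pool.Agent.Lib.MP_d0f9e0_co.Kept.NearMaximalETF

/-- For every `ε > 0` and every large `d` there are `d ^ 2` unit vectors of `ℂ ^ d` which form a
tight frame, whose rank one projections are linearly independent, and whose pairwise inner
products have moduli between `(1 - ε) / √(d + 1)` and `(1 + ε) / √(d + 1)`. -/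
theorem result : ∀ ε : ℝ, 0 < ε → ∃ d₀ : ℕ, ∀ d : ℕ, d₀ ≤ d →
    ∃ x : Fin (d ^ 2) → Fin d → ℂ,
      (∀ i, ∑ k, ‖x i k‖ ^ 2 = 1) ∧
      (∀ v : Fin d → ℂ, ∑ i, ‖∑ k, x i k * star (v k)‖ ^ 2 = d * ∑ k, ‖v k‖ ^ 2) ∧
      LinearIndependent ℂ (fun i => Matrix.vecMulVec (x i) (star (x i))) ∧
      ∀ i j, i ≠ j → (1 - ε) / Real.sqrt (d + 1) ≤ ‖∑ k, x i k * star (x j k)‖ ∧
        ‖∑ k, x i k * star (x j k)‖ ≤ (1 + ε) / Real.sqrt (d + 1) := by
  intro ε hε
  obtain ⟨d₀, h0⟩ := Pool.Agent.Lib.MP_d0f9e0_co.Approx.exists_final hε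
  refine ⟨d₀, fun d hd => ?_⟩
  obtain ⟨x, h1, h2, h3, h4⟩ := h0 d hd
  have key : ∀ u v : EuclideanSpace ℂ (Fin d),
      ‖∑ k, u.ofLp k * star (v.ofLp k)‖ = ‖inner ℂ u v‖ := by
    intro u v
    rw [norm_inner_symm, EuclideanSpace.inner_eq_star_dotProduct]
    rfl
  refine ⟨fun i => (x i).ofLp, ?_, ?_, h3, ?_⟩
  · intro i
    rw [← EuclideanSpace.norm_sq_eq, h1, one_pow]
  · intro v
    have h5 := h2 (WithLp.toLp 2 v)
    rw [EuclideanSpace.norm_sq_eq] at h5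
    rw [← h5]
    apply Finset.sum_congr rfl
    intro i _
    rw [← key]
  · intro i j hij
    rw [key]
    exact h4 i j hij

end Pool.Agent.Lib.MP_d0f9e0_co.Kept.NearMaximalETF
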