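import Mathlib
import Pool.Agent.Lib.MP_d0f9e0_co.Ab.Hom
import Pool.Agent.Lib.MP_d0f9e0_co.Ci.MainJ

set_option autoImplicit false

namespace Pool.Agent.Lib.MP_d0f9e0_co.Kept.WHFinite

open Matrix

/-- The standard Hermitian inner product, linear in the first argument. -/
noncomputable def ip {κ : Type} [Fintype κ] (u v : κ → ℂ) : ℂ := ∑ k, u k * star (v k)

/-- A maximal equiangular tight frame of `ℂ^κ`, `d = |κ|`: `d^2` unit vectors whose pairwise inner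
products have modulus `1/√(d+1)`. -/
def IsMaxETF {ι κ : Type} [Fintype κ] (x : ι → (κ → ℂ)) : Prop :=
  Nat.card ι = Fintype.card κ ^ 2 ∧ (∀ i, ip (x i) (x i) = 1) ∧
    ∀ i j, i ≠ j → ‖ip (x i) (x j)‖ = 1 / Real.sqrt ((Fintype.card κ : ℝ) + 1)

/-- The unitary matrices permuting the lines `ℂ x_i` act transitively on these lines. -/
def IsHomogeneous {ι κ : Type} [Fintype κ] [DecidableEq κ] (x : ι → (κ → ℂ)) : Prop :=
  ∀ i j, ∃ U ∈ Matrix.unitaryGroup κ ℂ, (∀ k, ∃ l, ∃ c : ℂ, U.mulVec (x k) = c • x l) ∧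
    ∃ c : ℂ, U.mulVec (x i) = c • x j

/-- The Weyl-Heisenberg displacement of `ℂ^A` at `q = (a, χ)`: the vector `k ↦ χ(k) ψ(k + a)`. -/
noncomputable def displace {A : Type} [AddCommGroup A] (q : A × AddChar A ℂ) (ψ : A → ℂ) : A → ℂ :=
  fun k => q.2 k * ψ (k + q.1)

/-- `ψ` is a fiducial vector: its `|A|^2` Weyl-Heisenberg displacements form a maximal
equiangular tight frame of `ℂ^A`. -/
def IsFiducial {A : Type} [AddCommGroup A] [Fintype A] (ψ : A → ℂ) : Prop :=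
  IsMaxETF (fun q : A × AddChar A ℂ => displace q ψ)

theorem ip_displace {A : Type} [AddCommGroup A] [Fintype A] (ψ : A → ℂ) (q q' : A × AddChar A ℂ) :
    ip (displace q ψ) (displace q' ψ) = (q.2 - q'.2) (-q'.1) * SicAb.so ψ (q - q') := by
  unfold ip displace SicAb.so
  rw [Finset.mul_sum]
  refine Fintype.sum_equiv (Equiv.addRight q'.1) _ _ fun k => ?_
  simp only [Equiv.coe_addRight, Prod.snd_sub, Prod.fst_sub]
  have e1 : k + q'.1 + (q.1 - q'.1) = k + q.1 := by abel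
  have e2 : (q.2 - q'.2) (-q'.1) * (q.2 - q'.2) (k + q'.1) = (q.2 - q'.2) k := by
    rw [← AddChar.map_add_eq_mul]
    congr 1
    abel
  have e3 : (q.2 - q'.2) k = q.2 k * star (q'.2 k) := by
    rw [AddChar.sub_apply, AddChar.map_neg_eq_conj]
    rfl
  rw [e1, star_mul]
  linear_combination (-(star (ψ (k + q'.1)) * ψ (k + q.1))) * e2 +
    (-(star (ψ (k + q'.1)) * ψ (k + q.1))) * e3

theorem norm_ip_displace {A : Type} [AddCommGroup A] [Fintype A] (ψ : A → ℂ)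
    (q q' : A × AddChar A ℂ) :
    ‖ip (displace q ψ) (displace q' ψ)‖ = ‖SicAb.so ψ (q - q')‖ := by
  rw [ip_displace, norm_mul, AddChar.norm_apply, one_mul]

theorem isFiducial_iff {A : Type} [AddCommGroup A] [Fintype A] [DecidableEq A] (ψ : A → ℂ) :
    IsFiducial ψ ↔ SicAb.Fid ψ := by
  rw [SicAb.fid_iff]
  constructor
  · rintro ⟨-, h1, h2⟩
    refine ⟨?_, fun h hh => ?_⟩
    · have e1 := h1 0
      rw [ip_displace, sub_self, sub_self, AddChar.zero_apply, one_mul] at e1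
      exact e1
    · have e1 := h2 h 0 hh
      rw [norm_ip_displace, sub_zero] at e1
      exact e1
  · rintro ⟨h1, h2⟩
    refine ⟨?_, fun q => ?_, fun q q' hq => ?_⟩
    · rw [Nat.card_eq_fintype_card, Fintype.card_prod, AddChar.card_eq, sq]
    · rw [ip_displace, sub_self, sub_self, AddChar.zero_apply, one_mul]
      exact h1
    · rw [norm_ip_displace]
      exact h2 _ (sub_ne_zero.2 hq)

theorem result (A : Type) [AddCommGroup A] [Fintype A] [DecidableEq A]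
    (h3 : Fintype.card A ≠ 3) (h4 : ¬ ∃ f : ZMod 4 × ZMod 4 →+ A, Function.Injective f) :
    ∃ F : Set (A → ℂ), F.Finite ∧
      (∀ φ ∈ F, IsFiducial φ ∧ ∀ k, IsAlgebraic ℚ (φ k)) ∧
      (∀ ψ, IsFiducial ψ → ∃ φ ∈ F, ∃ c : ℂ, ψ = c • φ) ∧
      ((Fintype.card A).Prime → ∀ (ι : Type) (x : ι → (A → ℂ)), IsMaxETF x → IsHomogeneous x →
        ∃ φ ∈ F, ∃ e : ι ≃ A × AddChar A ℂ, ∃ W ∈ Matrix.unitaryGroup A ℂ,
          ∀ i, ∃ c : ℂ, W.mulVec (x i) = c • displace (e i) φ) := by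
  obtain ⟨F, hF, hF1, hF2⟩ := SicAb.exists_fid_list (SicAb.algAll_of_noEmb h3 h4)
  refine ⟨F, hF, fun φ hφ => ⟨(isFiducial_iff φ).2 (hF1 φ hφ).1, (hF1 φ hφ).2⟩,
    fun ψ hψ => hF2 ψ ((isFiducial_iff ψ).1 hψ), fun hp ι x hx hh => ?_⟩
  obtain ⟨hc, h1, h2⟩ := hx
  obtain ⟨ψ, hψ, e, W, hW, hWx⟩ := SicAb.homogeneous_form hp hc h1 h2 hh
  obtain ⟨φ, hφ, c, rfl⟩ := hF2 ψ hψ
  refine ⟨φ, hφ, e, W, hW, fun i => ?_⟩
  obtain ⟨c', hc'⟩ := hWx i
  refine ⟨c' * c, ?_⟩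
  rw [hc']
  funext k
  simp only [Pi.smul_apply, smul_eq_mul, displace]
  ring

end Pool.Agent.Lib.MP_d0f9e0_co.Kept.WHFinite
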