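import Mathlib
import Pool.Agent.Lib.MP_d0f9e0_co.Fin.Reindex

set_option autoImplicit false

namespace Pool.Agent.Lib.MP_d0f9e0_co.Kept.WHFinitePrime

open Matrix

/-- The standard Hermitian inner product, linear in the first argument. -/
noncomputable def ip {κ : Type} [Fintype κ] (u v : κ → ℂ) : ℂ := ∑ k, u k * star (v k)

/-- A maximal equiangular tight frame of `ℂ^κ`, `d = |κ|`: `d^2` unit vectors whose pairwise inner
products have modulus `1/√(d+1)`. -/
def IsMaxETF {ι κ : Type} [Fintype κ] (x : ι → (κ → ℂ)) : Prop :=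
  Nat.card ι = Fintype.card κ ^ 2 ∧ (∀ i, ip (x i) (x i) = 1) ∧
    ∀ i j, i ≠ j → ‖ip (x i) (x j)‖ = 1 / Real.sqrt ((Fintype.card κ : ℝ) + 1)

/-- The unitary matrices permuting the lines `ℂ x_i` act transitively on these lines. -/
def IsHomogeneous {ι κ : Type} [Fintype κ] [DecidableEq κ] (x : ι → (κ → ℂ)) : Prop :=
  ∀ i j, ∃ U ∈ Matrix.unitaryGroup κ ℂ, (∀ k, ∃ l, ∃ c : ℂ, U.mulVec (x k) = c • x l) ∧
    ∃ c : ℂ, U.mulVec (x i) = c • x j

/-- The Weyl-Heisenberg displacement `(D_{a,b} ψ)(k) = exp(2πi/p)^(b k) ψ(k + a)` of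
`ℂ^p = ℂ^(ZMod p)`. -/
noncomputable def displace (p : ℕ) (q : ZMod p × ZMod p) (ψ : ZMod p → ℂ) : ZMod p → ℂ :=
  fun k => Complex.exp (2 * Real.pi * Complex.I / p) ^ (q.2 * k).val * ψ (k + q.1)

/-- `ψ` is a fiducial vector: its `p^2` Weyl-Heisenberg displacements form a maximal
equiangular tight frame of `ℂ^p`. -/
def IsFiducial (p : ℕ) [NeZero p] (ψ : ZMod p → ℂ) : Prop :=
  IsMaxETF (fun q : ZMod p × ZMod p => displace p q ψ)

theorem result (p : ℕ) [Fact p.Prime] (hp : 5 ≤ p) :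
    ∃ F : Set (ZMod p → ℂ), F.Finite ∧
      (∀ φ ∈ F, IsFiducial p φ ∧ ∀ k, IsAlgebraic ℚ (φ k)) ∧
      (∀ ψ, IsFiducial p ψ → ∃ φ ∈ F, ∃ c : ℂ, ψ = c • φ) ∧
      ∀ (ι : Type) (x : ι → (ZMod p → ℂ)), IsMaxETF x → IsHomogeneous x →
        ∃ φ ∈ F, ∃ e : ι ≃ ZMod p × ZMod p, ∃ W ∈ Matrix.unitaryGroup (ZMod p) ℂ,
          ∀ i, ∃ c : ℂ, W.mulVec (x i) = c • displace p (e i) φ := by
  have hpr : p.Prime := Fact.out
  set om : ℂ := Complex.exp (2 * Real.pi * Complex.I / p) with hom'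
  have hom : IsPrimitiveRoot om p := Complex.isPrimitiveRoot_exp p hpr.ne_zero
  have hfid : ∀ ψ : ZMod p → ℂ, IsFiducial p ψ ↔ SicFin.IsFid om ψ := by
    intro ψ
    constructor
    · rintro ⟨-, h1, h2⟩
      refine ⟨?_, fun a b hab => ?_⟩
      · rw [SicFin.ov_eq_ipz hom.pow_eq_one, neg_zero]
        exact h1 (0, 0)
      · rw [SicFin.ov_eq_ipz hom.pow_eq_one]
        have h3 := h2 (0, 0) (a, -b) (by
          intro h
          rw [Prod.mk.injEq] at h
          rcases hab with h4 | h4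
          · exact h4 h.1.symm
          · exact h4 (by simpa using h.2.symm))
        rw [ZMod.card] at h3
        exact SicFin.sq_of_norm h3
    · intro h
      refine ⟨?_, fun q => ?_, fun q q' hq => ?_⟩
      · rw [Nat.card_eq_fintype_card, Fintype.card_prod, sq]
      · have h1 : ip (displace p q ψ) (displace p q ψ) =
            SicFin.ipz (SicFin.wh om q.1 q.2 ψ) (SicFin.wh om q.1 q.2 ψ) := rfl
        have h2 : SicFin.ipz (SicFin.wh om q.1 q.2 ψ) (SicFin.wh om q.1 q.2 ψ) =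
            SicFin.ipz ψ ψ := by
          unfold SicFin.ipz SicFin.wh
          refine Fintype.sum_equiv (Equiv.addRight q.1) _ _ fun r => ?_
          simp only [map_mul, SicFin.conj_om hom.pow_eq_one, Equiv.coe_addRight]
          have e2 : SicFin.chi om (q.2 * r) * SicFin.chi om (-(q.2 * r)) = 1 := by
            rw [← SicFin.chi_add hom.pow_eq_one, add_neg_cancel, SicFin.chi_zero]
          linear_combination (ψ (r + q.1) * (starRingEnd ℂ) (ψ (r + q.1))) * e2
        rw [h1, h2, ← SicFin.ov_zero_eq (om := om)]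
        exact h.1
      · have h1 : ip (displace p q ψ) (displace p q' ψ) =
            SicFin.ipz (SicFin.wh om q.1 q.2 ψ) (SicFin.wh om q'.1 q'.2 ψ) := rfl
        rw [h1, SicFin.norm_ipz_wh hom.pow_eq_one, ZMod.card]
        apply SicFin.norm_of_sq
        apply h.2
        by_contra hcon
        push Not at hcon
        apply hq
        ext1
        · exact (sub_eq_zero.mp hcon.1).symm
        · exact sub_eq_zero.mp hcon.2
  obtain ⟨F, hF, hF1, hF2⟩ := SicFin.exists_fid_list (SicFin.fidSet_finite hp hom)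
    (SicFin.fidSet_algebraic hp hom)
  refine ⟨F, hF, fun φ hφ => ⟨(hfid φ).2 (hF1 φ hφ).1, (hF1 φ hφ).2⟩,
    fun ψ hψ => hF2 ψ ((hfid ψ).1 hψ), fun ι x hx hh => ?_⟩
  obtain ⟨hc, h1, h2⟩ := hx
  rw [ZMod.card] at hc
  simp only [ZMod.card] at h2
  obtain ⟨ψ, hψ, e, W, hW, hWx⟩ := SicFin.exists_form_reindexed hom hc h1 h2 hh
  obtain ⟨φ, hφ, c, rfl⟩ := hF2 ψ hψ
  refine ⟨φ, hφ, e, W, hW, fun i => ?_⟩
  obtain ⟨c', hc'⟩ := hWx i
  refine ⟨c' * c, ?_⟩
  rw [hc']
  funext k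
  simp only [Pi.smul_apply, smul_eq_mul, SicFin.wh, SicFin.chi, displace]
  ring

end Pool.Agent.Lib.MP_d0f9e0_co.Kept.WHFinitePrime
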