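import Pool.Agent.Lib.MP_d0f9e0_co.WHNear.Uniform

/-!
# Nearly equiangular Weyl-Heisenberg orbits
-/

set_option autoImplicit false

namespace Pool.Agent.Lib.MP_d0f9e0_co.Kept.WHNear

/-- Let `A` be a finite abelian group with `d ≥ 2` elements which is isomorphic to the additive
group of a finite field of odd characteristic or to the multiplicative group of a finite field
(so `A` can be `ZMod d` if `d` is an odd prime or if `d + 1` is a prime power). There is a vector
`φ : A → ℂ` whose `d ^ 2` Weyl-Heisenberg displacements `k ↦ χ k * φ (k + a)`, `a` in `A`, `χ` a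
character of `A`, are unit vectors, form a tight frame, have all their overlaps of modulus
`(1 + O(d ^ (-1 / 4))) / √(d + 1)`, and, for `d ≥ 720`, have linearly independent rank one
projections. -/
theorem result : ∀ (A F : Type) [AddCommGroup A] [Fintype A] [Field F] [Finite F],
    2 ≤ Fintype.card A →
    ((2 : F) ≠ 0 ∧ Nonempty (A ≃+ F)) ∨ Nonempty (A ≃+ Additive Fˣ) →
    ∃ φ : A → ℂ,
      (∀ i : A × AddChar A ℂ, ∑ k, ‖i.2 k * φ (k + i.1)‖ ^ 2 = 1) ∧
      (∀ v : A → ℂ, ∑ i : A × AddChar A ℂ, ‖∑ k, i.2 k * φ (k + i.1) * star (v k)‖ ^ 2 =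
        Fintype.card A * ∑ k, ‖v k‖ ^ 2) ∧
      (∀ i j : A × AddChar A ℂ, i ≠ j →
        |Real.sqrt (Fintype.card A + 1) *
          ‖∑ k, i.2 k * φ (k + i.1) * star (j.2 k * φ (k + j.1))‖ - 1| ≤
        4 * (Fintype.card A : ℝ) ^ (-(1 / 4) : ℝ) + 6 * (Fintype.card A : ℝ) ^ (-(1 / 2) : ℝ)) ∧
      (720 ≤ Fintype.card A → LinearIndependent ℂ (fun i : A × AddChar A ℂ =>
        Matrix.vecMulVec (fun k => i.2 k * φ (k + i.1)) (star fun k => i.2 k * φ (k + i.1)))) :=
  fun _ _ _ _ _ _ hA h => Pool.Agent.Lib.MP_d0f9e0_co.WHNear.uniform hA h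

end Pool.Agent.Lib.MP_d0f9e0_co.Kept.WHNear
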